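import Pool.Agent.H73.G.R8.H294ZP.TA1
import Pool.Agent.H73.G.R8.H294ZP.TBproof
import Pool.Agent.H73.G.R8.H294ZP.TD
import Pool.Agent.H73.G.R8.H294ZP.TaskTA2
import Pool.Agent.H73.G.R8.H294ZP.TaskTC
import Pool.Agent.H73.G.R8.H676R4.ZPTF

/-!
# Modular polynomials of degree at most `N ^ 3`
-/

set_option autoImplicit false

namespace Pool.Agent.R870.NY

open Polynomial UpperHalfPlane H294ZP

/-- holomorphic on the upper half plane, with a pole of order at most `M` (in `q ^ (1 / N)`) -/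
def LB (N M : ℕ) (f : ℍ → ℂ) : Prop := (∃ A : ℂ, Lau N M A f) ∧ Hol f

theorem LB.mono {N M M' : ℕ} (hN : 0 < N) (h : M ≤ M') {f : ℍ → ℂ} (hf : LB N M f) :
    LB N M' f := by
  rcases Nat.eq_or_lt_of_le h with rfl | h
  · exact hf
  · obtain ⟨⟨A, hA⟩, h2⟩ := hf
    obtain ⟨k, rfl⟩ := Nat.exists_eq_add_of_lt h
    refine ⟨⟨0, ?_⟩, h2⟩
    have := tc.2.1 N M (k + 1) A f hN (by omega) hA
    rwa [← add_assoc] at this

theorem LB.const {N : ℕ} (hN : 0 < N) {A : ℂ} (hA : IsIntegral ℤ A) : LB N 0 (fun _ => A) :=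
  ⟨⟨A, tc.1 N A hN hA⟩, TDaux.Hol.const A⟩

theorem LB.add {N M : ℕ} (hN : 0 < N) {f g : ℍ → ℂ} (hf : LB N M f) (hg : LB N M g) :
    LB N M (fun τ => f τ + g τ) := by
  obtain ⟨⟨A, h1⟩, h2⟩ := hf
  obtain ⟨⟨A', h1'⟩, h2'⟩ := hg
  exact ⟨⟨_, tc.2.2.1 N M A A' f g hN h1 h1'⟩, TDaux.Hol.add h2 h2'⟩

theorem LB.mul {N M M' : ℕ} (hN : 0 < N) {f g : ℍ → ℂ} (hf : LB N M f) (hg : LB N M' g) :
    LB N (M + M') (fun τ => f τ * g τ) := by
  obtain ⟨⟨A, h1⟩, h2⟩ := hf
  obtain ⟨⟨A', h1'⟩, h2'⟩ := hg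
  exact ⟨⟨_, tc.2.2.2.1 N M M' A A' f g hN h1 h1'⟩, TDaux.Hol.mul h2 h2'⟩

theorem LB.neg {N M : ℕ} (hN : 0 < N) {f : ℍ → ℂ} (hf : LB N M f) :
    LB N M (fun τ => - f τ) := by
  have h := LB.mul hN (LB.const hN (A := -1) (isIntegral_one.neg)) hf
  simpa using h

theorem coeff_prod {N m : ℕ} (hN : 0 < N) {ι : Type} [DecidableEq ι]
    (G : ι → ℍ → ℂ) (hG : ∀ k, LB N m (G k)) (s : Finset ι) :
    ∀ j, LB N (s.card * m) (fun τ => (∏ k ∈ s, (X - C (G k τ))).coeff j) := by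
  classical
  induction s using Finset.induction_on with
  | empty =>
    intro j
    rw [Finset.card_empty, zero_mul]
    by_cases hj : j = 0
    · subst hj
      simpa using LB.const hN (A := 1) isIntegral_one
    · have h0 := LB.const hN (A := 0) isIntegral_zero
      convert h0 using 2 with τ
      simp [coeff_one, hj]
  | insert k s hk ih =>
    intro j
    have hrw : ∀ τ, (∏ k ∈ insert k s, (X - C (G k τ))).coeff j =
        (if j = 0 then 0 else (∏ k ∈ s, (X - C (G k τ))).coeff (j - 1)) +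
          -(G k τ * (∏ k ∈ s, (X - C (G k τ))).coeff j) := by
      intro τ
      rw [Finset.prod_insert hk, sub_mul, coeff_sub, coeff_C_mul]
      cases j with
      | zero => simp
      | succ j => simp [coeff_X_mul, sub_eq_add_neg]
    rw [Finset.card_insert_of_notMem hk, Nat.succ_mul]
    have h1 : LB N (s.card * m + m)
        (fun τ => -(G k τ * (∏ k ∈ s, (X - C (G k τ))).coeff j)) := by
      rw [add_comm]
      exact LB.neg hN (LB.mul hN (hG k) (ih j))
    have h2 : LB N (s.card * m + m)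
        (fun τ => if j = 0 then (0:ℂ) else (∏ k ∈ s, (X - C (G k τ))).coeff (j - 1)) := by
      by_cases hj : j = 0
      · simpa [hj] using LB.mono hN (Nat.zero_le _) (LB.const hN (A := 0) isIntegral_zero)
      · simpa [hj] using LB.mono hN (Nat.le_add_right _ m) (ih (j - 1))
    have h3 := LB.add hN h2 h1
    simpa only [hrw] using h3

theorem hTA : TA := ⟨ta1.1, ta1.2, ta2⟩

theorem hTB : TB := TBproof.tb hTA tc

open Function FixedDetMatrices Matrix MatrixGroups H294ZP.TF676 in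
theorem card_reps {N : ℕ} (hN : 0 < N) : Nat.card (reps (N : ℤ)) ≤ N ^ 2 := by
  classical
  let φ : reps (N : ℤ) → Fin N × Fin N := fun k =>
    (⟨(k.1.1 0 0).toNat - 1, by
      have h := (reps_pos hN k)
      have h2 : (k.1.1 0 0).toNat ≤ N := by
        calc (k.1.1 0 0).toNat ≤ (k.1.1 0 0).toNat * (k.1.1 1 1).toNat :=
              Nat.le_mul_of_pos_right _ h.2.1
          _ = N := h.2.2.1
      omega⟩,
    ⟨(k.1.1 0 1).toNat, by
      have h := (reps_pos hN k)
      obtain ⟨a1, a2, a3, a4⟩ := k.2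
      have h2 : (k.1.1 1 1).toNat ≤ N := by
        calc (k.1.1 1 1).toNat ≤ (k.1.1 0 0).toNat * (k.1.1 1 1).toNat :=
              Nat.le_mul_of_pos_left _ h.1
          _ = N := h.2.2.1
      have h3 : 0 < k.1.1 1 1 := by
        have := h.2.1
        omega
      rw [abs_of_nonneg a3, abs_of_pos h3] at a4
      omega⟩)
  have hφ : Injective φ := by
    intro k k' h
    have hk := reps_pos hN k
    have hk' := reps_pos hN k'
    have e1 : (k.1.1 0 0).toNat - 1 = (k'.1.1 0 0).toNat - 1 := by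
      have := congrArg (fun x => (x.1 : ℕ)) h
      exact this
    have e2 : (k.1.1 0 1).toNat = (k'.1.1 0 1).toNat := by
      have := congrArg (fun x => (x.2 : ℕ)) h
      exact this
    have f00 : k.1.1 0 0 = k'.1.1 0 0 := by
      have h1 := hk.1
      have h2 := hk'.1
      have h3 := hk.2.2.2.1
      have h4 := hk'.2.2.2.1
      omega
    have f01 : k.1.1 0 1 = k'.1.1 0 1 := by
      have h1 := k.2.2.2.1
      have h2 := k'.2.2.2.1
      omega
    have f10 : k.1.1 1 0 = k'.1.1 1 0 := by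
      rw [hk.2.2.2.2.2, hk'.2.2.2.2.2]
    have f11 : k.1.1 1 1 = k'.1.1 1 1 := by
      have h1 := det_eq k.1
      have h2 := det_eq k'.1
      rw [hk.2.2.2.2.2, mul_zero, sub_zero] at h1
      rw [hk'.2.2.2.2.2, mul_zero, sub_zero, ← f00] at h2
      have h3 : k.1.1 0 0 ≠ 0 := by
        have h4 := hk.1
        have h5 := hk.2.2.2.1
        omega
      exact (mul_left_cancel₀ h3 (h2.trans h1.symm)).symm
    apply Subtype.ext
    apply Subtype.ext
    ext i j
    fin_cases i <;> fin_cases j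
    · exact f00
    · exact f01
    · exact f10
    · exact f11
  have h1 := Nat.card_le_card_of_injective φ hφ
  rw [Nat.card_prod, Nat.card_eq_fintype_card (α := Fin N), Fintype.card_fin] at h1
  rwa [pow_two]

open Function FixedDetMatrices Matrix MatrixGroups H294ZP.TF676 in
theorem tfc (N : ℕ) (hN : 0 < N) : ∃ (ι : Type) (_ : Fintype ι) (_ : DecidableEq ι)
    (a d : ι → ℕ) (b : ι → ℤ) (h : ι → ℍ → ℍ), Fintype.card ι ≤ N ^ 2 ∧
    (∀ k, 0 < a k ∧ 0 < d k ∧ a k * d k = N) ∧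
    (∀ k τ, (h k τ : ℂ) * d k = a k * τ + b k) ∧
    (∀ (p q r s : ℤ), p * s - q * r = 1 → ∀ τ w : ℍ, (w : ℂ) * (r * τ + s) = p * τ + q →
      ∃ σ : Equiv.Perm ι, ∀ k, jj (h k w) = jj (h (σ k) τ)) ∧
    (∀ (p q r s : ℤ), p * s - q * r = N → ∀ τ w : ℍ, (w : ℂ) * (r * τ + s) = p * τ + q →
      ∃ k, jj w = jj (h k τ)) := by
  have hj : Inv jj := ta1.1
  classical
  refine ⟨reps (N : ℤ), inferInstance, inferInstance, fun k => (k.1.1 0 0).toNat,
    fun k => (k.1.1 1 1).toNat, fun k => k.1.1 0 1, hf hN, ?_, ?_, ?_, ?_, ?_⟩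
  · rw [← Nat.card_eq_fintype_card]
    exact card_reps hN
  · intro k
    exact ⟨(reps_pos hN k).1, (reps_pos hN k).2.1, (reps_pos hN k).2.2.1⟩
  · intro k τ
    exact hk_mul _ _ _ (reps_pos hN k).1 (reps_pos hN k).2.1 τ
  · intro p q r s hdet τ w hw
    set γ : SL(2, ℤ) := ⟨!![p, q; r, s], by rw [Matrix.det_fin_two_of]; exact hdet⟩ with hγ
    have hinj : Function.Injective (fun k : reps (N : ℤ) => red hN (rmul k.1 γ)) := by
      intro k k' hkk
      simp only at hkk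
      have h1 : reduce (rmul k.1 γ) = reduce (rmul k'.1 γ) := congrArg Subtype.val hkk
      obtain ⟨g, hg⟩ := reduce_orbit (rmul k.1 γ)
      obtain ⟨g', hg'⟩ := reduce_orbit (rmul k'.1 γ)
      rw [hg, hg', smul_rmul, smul_rmul] at h1
      have h2 := rmul_inj γ h1
      have h3 : k'.1 = (g'⁻¹ * g) • k.1 := by
        rw [mul_smul, h2, inv_smul_smul]
      exact Subtype.ext (reps_unique (by exact_mod_cast hN) k.2 k'.2 _ h3)
    refine ⟨Equiv.ofBijective _ (Finite.injective_iff_bijective.1 hinj), fun k => ?_⟩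
    show jj (hf hN k w) = jj (hf hN (red hN (rmul k.1 γ)) τ)
    apply key hN hj
    have h1 := hf_mul hN k w
    have h10 : k.1.1 1 0 = 0 := (reps_pos hN k).2.2.2.2.2
    have e10 : (rmul k.1 γ).1 1 0 = k.1.1 1 1 * r := by
      show (k.1.1 * γ.1) 1 0 = _
      simp [Matrix.mul_apply, Fin.sum_univ_two, hγ, h10]
    have e11 : (rmul k.1 γ).1 1 1 = k.1.1 1 1 * s := by
      show (k.1.1 * γ.1) 1 1 = _
      simp [Matrix.mul_apply, Fin.sum_univ_two, hγ, h10]
    have e00 : (rmul k.1 γ).1 0 0 = k.1.1 0 0 * p + k.1.1 0 1 * r := by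
      show (k.1.1 * γ.1) 0 0 = _
      simp [Matrix.mul_apply, Fin.sum_univ_two, hγ]
    have e01 : (rmul k.1 γ).1 0 1 = k.1.1 0 0 * q + k.1.1 0 1 * s := by
      show (k.1.1 * γ.1) 0 1 = _
      simp [Matrix.mul_apply, Fin.sum_univ_two, hγ]
    rw [e10, e11, e00, e01]
    push_cast
    linear_combination ((r : ℂ) * τ + s) * h1 + (k.1.1 0 0 : ℂ) * hw
  · intro p q r s hdet τ w hw
    set A : FixedDetMatrix (Fin 2) ℤ (N : ℤ) :=
      ⟨!![p, q; r, s], by rw [Matrix.det_fin_two_of]; exact hdet⟩ with hA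
    refine ⟨red hN A, key hN hj A τ w ?_⟩
    simpa [hA] using hw

end Pool.Agent.R870.NY
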